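import Pool.Agent.Helper31.BC.Stmts

/-! # Module LIT: the chosen literals -/

set_option autoImplicit false

namespace Pool.Agent.Helper31.BC

open Pool.Agent.Helper38.MR (Edge Graph clq mpt Gate Simple out trv)
open Pool.Agent.Helper52.Grid

section

theorem lit_in {k q l : ℕ} (σ : Fin k → Fin q) (χ : Fin (k * q) → Fin l) {i : ℕ}
    (h : i < k * q) : asg σ χ i = inn σ i := by
  unfold asg
  rw [if_pos h]

theorem lit_vr {k q l : ℕ} (σ : Fin k → Fin q) (χ : Fin (k * q) → Fin l) {v c : ℕ}
    (hv : v < k * q) (hc : c < l) : asg σ χ (vr (k * q) l v c) = decide (col χ v = c) := by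
  have hl : 0 < l := by omega
  have h1 : ¬ vr (k * q) l v c < k * q := by
    unfold vr
    omega
  have h3 : v * l + c < k * q * l := by
    calc v * l + c < v * l + l := by omega
      _ = (v + 1) * l := by ring
      _ ≤ k * q * l := Nat.mul_le_mul_right _ hv
  have h2 : vr (k * q) l v c < k * q + k * q * l := by
    unfold vr
    omega
  unfold asg
  rw [if_neg h1, if_pos h2]
  have h4 : vr (k * q) l v c - k * q = c + l * v := by
    unfold vr
    rw [Nat.add_sub_cancel_left, Nat.mul_comm]
    omega
  rw [h4, Nat.add_mul_div_left _ _ hl, Nat.div_eq_of_lt hc, Nat.add_mul_mod_self_left,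
    Nat.mod_eq_of_lt hc, Nat.zero_add]

theorem lit_vb {k q l : ℕ} (σ : Fin k → Fin q) (χ : Fin (k * q) → Fin l) {u v : ℕ}
    (hv : v < k * q) : asg σ χ (vb (k * q) l u v) = decide (col χ u = col χ v) := by
  have hm : 0 < k * q := by omega
  have h1 : ¬ vb (k * q) l u v < k * q := by
    unfold vb
    omega
  have h2 : ¬ vb (k * q) l u v < k * q + k * q * l := by
    unfold vb
    omega
  unfold asg
  rw [if_neg h1, if_neg h2]
  have h4 : vb (k * q) l u v - k * q - k * q * l = v + (k * q) * u := by
    unfold vb
    have : u * (k * q) = (k * q) * u := Nat.mul_comm _ _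
    omega
  rw [h4, Nat.add_mul_div_left _ _ hm, Nat.div_eq_of_lt hv, Nat.add_mul_mod_self_left,
    Nat.mod_eq_of_lt hv, Nat.zero_add]

theorem lit_inn {k q : ℕ} (σ : Fin k → Fin q) {v : ℕ} (h : v < k * q) (ht : inn σ v ≠ false) :
    (⟨v, h⟩ : Fin (k * q)) ∈ trv σ := by
  unfold inn at ht
  rw [dif_pos h] at ht
  by_contra hc
  exact ht (decide_eq_false hc)

theorem lit_col {m l : ℕ} (χ : Fin m → Fin l) {v : ℕ} (h : v < m) : col χ v = χ ⟨v, h⟩ := by
  unfold col
  rw [dif_pos h]

end

theorem st_LIT : ST_LIT := by
  intro k q l σ χ x hx y hy hne
  unfold pcc at hx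
  rw [List.mem_append] at hx
  rcases hx with hx | hx
  · unfold pcA at hx
    rw [List.mem_append] at hx
    rcases hx with hx | hx
    · exfalso
      rw [List.mem_map] at hx
      obtain ⟨i, hi, rfl⟩ := hx
      rw [List.mem_range] at hi
      have hs : sel σ i = σ ⟨i, hi⟩ := by
        unfold sel
        rw [dif_pos hi]
      simp only [hs] at hy
      have hlt : (σ ⟨i, hi⟩ : ℕ) < q := (σ ⟨i, hi⟩).2
      rw [List.getElem?_map, List.getElem?_range hlt, Option.map_some, Option.some.injEq] at hy
      apply hne
      rw [← hy]
      simp only
      have hidx : (finProdFinEquiv ((⟨i, hi⟩ : Fin k), σ ⟨i, hi⟩) : Fin (k * q)).1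
          = (σ ⟨i, hi⟩ : ℕ) + q * i := rfl
      have hlt2 : (σ ⟨i, hi⟩ : ℕ) + q * i < k * q := by
        rw [← hidx]
        exact (finProdFinEquiv ((⟨i, hi⟩ : Fin k), σ ⟨i, hi⟩) : Fin (k * q)).2
      rw [lit_in σ χ hlt2]
      unfold inn
      rw [dif_pos hlt2]
      apply decide_eq_true
      unfold trv
      rw [Finset.mem_image]
      exact ⟨⟨i, hi⟩, Finset.mem_univ _, Fin.ext hidx⟩
    · rw [List.mem_flatMap] at hx
      obtain ⟨u, hu, hx⟩ := hx
      rw [List.mem_flatMap] at hx
      obtain ⟨v, hv, hx⟩ := hx
      rw [List.mem_range] at hu hv
      by_cases huv : u < v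
      · rw [if_pos huv, List.mem_singleton] at hx
        subst hx
        by_cases h1 : inn σ u = false
        · exfalso
          simp only [if_pos h1] at hy
          rw [List.getElem?_cons_zero, Option.some.injEq] at hy
          apply hne
          rw [← hy]
          simp only
          rw [lit_in σ χ hu, h1]
        · by_cases h2 : inn σ v = false
          · exfalso
            simp only [if_neg h1, if_pos h2] at hy
            rw [List.getElem?_cons_succ, List.getElem?_cons_zero, Option.some.injEq] at hy
            apply hne
            rw [← hy]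
            simp only
            rw [lit_in σ χ hv, h2]
          · simp only [if_neg h1, if_neg h2] at hy
            rw [List.getElem?_cons_succ, List.getElem?_cons_succ, List.getElem?_cons_zero,
              Option.some.injEq] at hy
            rw [← hy] at hne
            simp only at hne
            rw [lit_vb σ χ hv] at hne
            refine ⟨⟨u, hu⟩, ⟨v, hv⟩, huv, ?_, lit_inn σ hu h1, lit_inn σ hv h2, ?_⟩
            · rw [← hy]
            · by_contra h3
              apply hne
              apply decide_eq_false
              intro h4
              rw [lit_col χ hu, lit_col χ hv] at h4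
              exact h3 (Fin.ext h4)
      · rw [if_neg huv] at hx
        exact absurd hx List.not_mem_nil
  · exfalso
    unfold pcB at hx
    rw [List.mem_append] at hx
    rcases hx with hx | hx
    · rw [List.mem_map] at hx
      obtain ⟨v, hv, rfl⟩ := hx
      rw [List.mem_range] at hv
      have hc := lit_col χ hv
      have hlt : col χ v < l := by
        rw [hc]
        exact (χ ⟨v, hv⟩).2
      simp only at hy
      rw [List.getElem?_map, List.getElem?_range hlt, Option.map_some, Option.some.injEq] at hy
      apply hne
      rw [← hy]
      simp only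
      rw [lit_vr σ χ hv hlt]
      exact decide_eq_true rfl
    · rw [List.mem_flatMap] at hx
      obtain ⟨u, hu, hx⟩ := hx
      rw [List.mem_flatMap] at hx
      obtain ⟨v, hv, hx⟩ := hx
      rw [List.mem_flatMap] at hx
      obtain ⟨c, hc, hx⟩ := hx
      rw [List.mem_range] at hu hv hc
      by_cases huv : u < v
      · rw [if_pos huv, List.mem_singleton] at hx
        subst hx
        by_cases h1 : col χ u = c
        · by_cases h2 : col χ v = c
          · simp only [h1, h2, ne_eq, not_true_eq_false, if_false] at hy
            rw [List.getElem?_cons_succ, List.getElem?_cons_succ, List.getElem?_cons_zero,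
              Option.some.injEq] at hy
            apply hne
            rw [← hy]
            simp only
            rw [lit_vb σ χ hv]
            apply decide_eq_true
            rw [h1, h2]
          · simp only [h1, h2, ne_eq, not_true_eq_false, if_false, not_false_eq_true, if_true] at hy
            rw [List.getElem?_cons_succ, List.getElem?_cons_zero, Option.some.injEq] at hy
            apply hne
            rw [← hy]
            simp only
            rw [lit_vr σ χ hv hc]
            exact decide_eq_false h2
        · simp only [h1, ne_eq, not_false_eq_true, if_true] at hy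
          rw [List.getElem?_cons_zero, Option.some.injEq] at hy
          apply hne
          rw [← hy]
          simp only
          rw [lit_vr σ χ hu hc]
          exact decide_eq_false h1
      · rw [if_neg huv] at hx
        exact absurd hx List.not_mem_nil

end Pool.Agent.Helper31.BC
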